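import Pool.Agent.Q169.ZD.Stm2

/-!
Project ZD, job CELL: the reflection construction as an acyclic complex of the semidirect product.
-/

set_option autoImplicit false

namespace Pool.Agent.V5helper52.ZD

open Pool.Agent.Q169.ZD
open Pool.Agent.TH38.CX (AcyclicGComplex)

noncomputable section

variable {B : Type} {M : CoxeterMatrix B} {W : Type} [Group W] (cs : CoxeterSystem M W)
  {H : Type} [Group H] [MulAction H B] (φ : H →* MulAut W) (Y : Mirrored H B)

theorem par_mono {S T : Set B} (h : S ⊆ T) : par cs S ≤ par cs T :=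
  Subgroup.closure_mono (Set.image_mono h)

theorem par_smul (hφ : ∀ h b, φ h (cs.simple b) = cs.simple (h • b)) (h : H) (T : Set B) (v : W)
    (hv : v ∈ par cs T) : φ h v ∈ par cs ((fun b => h • b) '' T) := by
  have h1 : (par cs T).map (φ h).toMonoidHom = par cs ((fun b => h • b) '' T) := by
    rw [par, par, MonoidHom.map_closure, Set.image_image, Set.image_image]
    congr 1
    ext w
    constructor
    · rintro ⟨b, hb, rfl⟩
      exact ⟨b, hb, (hφ h b).symm⟩
    · rintro ⟨b, hb, rfl⟩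
      exact ⟨b, hb, hφ h b⟩
  rw [← h1]
  exact Subgroup.mem_map_of_mem _ hv

theorem cell_eq_iff (i : ℕ) (e e' : Y.E i) (w w' : W) :
    cell cs Y i e w = cell cs Y i e' w' ↔ e = e' ∧ w⁻¹ * w' ∈ par cs (Y.mir i e) := by
  constructor
  · intro h
    have h1 : e = e' := congrArg Sigma.fst h
    subst h1
    refine ⟨rfl, ?_⟩
    have h2 := eq_of_heq (Sigma.mk.inj h).2
    exact QuotientGroup.eq.1 h2
  · rintro ⟨rfl, h⟩
    rw [cell, cell, QuotientGroup.eq.2 h]

theorem exists_cell (i : ℕ) (x : Cell cs Y i) : ∃ e w, x = cell cs Y i e w := by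
  obtain ⟨e, q⟩ := x
  obtain ⟨w, rfl⟩ := QuotientGroup.mk_surjective q
  exact ⟨e, w, rfl⟩

theorem out_mem (i : ℕ) (e : Y.E i) (w : W) :
    ((cell cs Y i e w).2.out)⁻¹ * w ∈ par cs (Y.mir i e) := by
  have h1 : (QuotientGroup.mk (cell cs Y i e w).2.out : W ⧸ par cs (Y.mir i e)) =
      QuotientGroup.mk w := QuotientGroup.out_eq' _
  exact QuotientGroup.eq.1 h1

/-- The action on the cells. -/
def sm (i : ℕ) (g : W ⋊[φ] H) (x : Cell cs Y i) : Cell cs Y i :=
  cell cs Y i (g.right • x.1) (g.left * φ g.right x.2.out)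

theorem sm_cell (hφ : ∀ h b, φ h (cs.simple b) = cs.simple (h • b)) (i : ℕ) (g : W ⋊[φ] H)
    (e : Y.E i) (w : W) :
    sm cs φ Y i g (cell cs Y i e w) = cell cs Y i (g.right • e) (g.left * φ g.right w) := by
  refine (cell_eq_iff cs Y i _ _ _ _).2 ⟨rfl, ?_⟩
  have h1 := par_smul cs φ hφ g.right _ _ (out_mem cs Y i e w)
  rw [← Y.mir_smul, map_mul, map_inv] at h1
  rw [mul_inv_rev, mul_assoc, inv_mul_cancel_left]
  exact h1

/-- The action of the semidirect product. -/
@[instance_reducible] def actU (hφ : ∀ h b, φ h (cs.simple b) = cs.simple (h • b)) (i : ℕ) :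
    MulAction (W ⋊[φ] H) (Cell cs Y i) where
  smul := sm cs φ Y i
  one_smul := by
    intro x
    obtain ⟨e, w, rfl⟩ := exists_cell cs Y i x
    change sm cs φ Y i 1 _ = _
    rw [sm_cell cs φ Y hφ]
    simp
  mul_smul := by
    intro g h x
    obtain ⟨e, w, rfl⟩ := exists_cell cs Y i x
    change sm cs φ Y i (g * h) _ = sm cs φ Y i g (sm cs φ Y i h _)
    rw [sm_cell cs φ Y hφ, sm_cell cs φ Y hφ, sm_cell cs φ Y hφ]
    simp [mul_smul, mul_assoc]

theorem bdCell_cell (i : ℕ) (e : Y.E (i + 1)) (w : W) :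
    bdCell cs Y i (cell cs Y (i + 1) e w) = (Y.bd i e).mapDomain (fun f => cell cs Y i f w) := by
  refine Finsupp.mapDomain_congr ?_
  intro f hf
  refine (cell_eq_iff cs Y i _ _ _ _).2 ⟨rfl, ?_⟩
  exact par_mono cs (Y.mir_face i e f (Finsupp.mem_support_iff.1 hf)) (out_mem cs Y (i + 1) e w)

/-- The boundary map as a homomorphism. -/
def bdH (i : ℕ) : (Cell cs Y (i + 1) →₀ ℤ) →+ (Cell cs Y i →₀ ℤ) where
  toFun := bdU cs Y i
  map_zero' := Finsupp.sum_zero_index
  map_add' := by
    intro x y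
    exact Finsupp.sum_add_index' (fun _ => zero_smul _ _) (fun _ _ _ => add_smul _ _ _)

theorem bdH_single (i : ℕ) (x : Cell cs Y (i + 1)) (n : ℤ) :
    bdH cs Y i (Finsupp.single x n) = n • bdCell cs Y i x := by
  change (Finsupp.single x n).sum (fun x n => n • bdCell cs Y i x) = _
  exact Finsupp.sum_single_index (zero_smul _ _)

theorem bdCell_sm (hφ : ∀ h b, φ h (cs.simple b) = cs.simple (h • b)) (i : ℕ) (g : W ⋊[φ] H)
    (x : Cell cs Y (i + 1)) :
    bdCell cs Y i (sm cs φ Y (i + 1) g x) = (bdCell cs Y i x).mapDomain (sm cs φ Y i g) := by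
  obtain ⟨e, w, rfl⟩ := exists_cell cs Y (i + 1) x
  rw [sm_cell cs φ Y hφ, bdCell_cell, bdCell_cell, Y.bd_smul, ← Finsupp.mapDomain_comp,
    ← Finsupp.mapDomain_comp]
  congr 1
  funext f
  exact (sm_cell cs φ Y hφ i g f w).symm

theorem bdH_sm (hφ : ∀ h b, φ h (cs.simple b) = cs.simple (h • b)) (i : ℕ) (g : W ⋊[φ] H)
    (x : Cell cs Y (i + 1) →₀ ℤ) :
    bdH cs Y i (x.mapDomain (sm cs φ Y (i + 1) g)) = (bdH cs Y i x).mapDomain (sm cs φ Y i g) := by
  have h1 : (bdH cs Y i).comp (Finsupp.mapDomain.addMonoidHom (sm cs φ Y (i + 1) g)) =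
      (Finsupp.mapDomain.addMonoidHom (sm cs φ Y i g)).comp (bdH cs Y i) := by
    refine Finsupp.addHom_ext ?_
    intro x n
    rw [AddMonoidHom.comp_apply, AddMonoidHom.comp_apply, Finsupp.mapDomain.addMonoidHom_apply,
      Finsupp.mapDomain_single, bdH_single, bdH_single, bdCell_sm cs φ Y hφ, map_zsmul]
    rfl
  exact DFunLike.congr_fun h1 x

theorem t_CELL : S_CELL := by
  intro B M W _ cs H _ _ φ hφ Y hY
  refine ⟨{ E := Cell cs Y
            act := actU cs φ Y hφ
            bd := bdH cs Y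
            bd_smul := bdH_sm cs φ Y hφ
            len := Y.len
            isEmpty := ?_
            nonempty := ?_
            exact_zero := hY.exact_zero
            exact_succ := hY.exact_succ }, cell cs Y, exists_cell cs Y, cell_eq_iff cs Y,
            sm_cell cs φ Y hφ, ?_⟩
  · intro i hi
    have := Y.isEmpty i hi
    exact ⟨fun x => this.false x.1⟩
  · obtain ⟨e⟩ := hY.nonempty
    exact ⟨cell cs Y 0 e 1⟩
  · intro i e w
    change bdH cs Y i (Finsupp.single (cell cs Y (i + 1) e w) 1) = _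
    rw [bdH_single, one_smul, bdCell_cell]

end

end Pool.Agent.V5helper52.ZD
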