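import Pool.Agent.Q169.ZD.Stm2

/-!
Project ZD, job EXT: the semidirect product of a Coxeter group with a group permuting the simple
reflections is an extended Coxeter group.
-/

set_option autoImplicit false
set_option linter.unusedSectionVars false

namespace Pool.Agent.V5helper52.ZD

open Pool.Agent.Q169.ZD

noncomputable section

variable {B : Type} {M : CoxeterMatrix B} {W : Type} [Group W] (cs : CoxeterSystem M W)
  {H : Type} [Group H] [MulAction H B] (φ : H →* MulAut W)

theorem map_wordProd (hφ : ∀ h b, φ h (cs.simple b) = cs.simple (h • b)) (h : H) (ω : List B) :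
    φ h (cs.wordProd ω) = cs.wordProd (ω.map (fun b => h • b)) := by
  induction ω with
  | nil => simp
  | cons b ω ih =>
    rw [cs.wordProd_cons, map_mul, ih, hφ, List.map_cons, cs.wordProd_cons]

theorem length_map_le (hφ : ∀ h b, φ h (cs.simple b) = cs.simple (h • b)) (h : H) (w : W) :
    cs.length (φ h w) ≤ cs.length w := by
  obtain ⟨ω, hω, rfl⟩ := cs.exists_isReduced w
  rw [map_wordProd cs φ hφ]
  refine (cs.length_wordProd_le _).trans ?_
  rw [List.length_map, hω.eq]

theorem inv_apply_map (h : H) (w : W) : φ h⁻¹ (φ h w) = w := by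
  rw [← MulAut.mul_apply, ← map_mul, inv_mul_cancel, map_one, MulAut.one_apply]

theorem length_map (hφ : ∀ h b, φ h (cs.simple b) = cs.simple (h • b)) (h : H) (w : W) :
    cs.length (φ h w) = cs.length w := by
  refine le_antisymm (length_map_le cs φ hφ h w) ?_
  have h1 := length_map_le cs φ hφ h⁻¹ (φ h w)
  rwa [inv_apply_map] at h1

/-- the indices of a set of simple reflections -/
def idx (T : Set (W ⋊[φ] H)) : Set B := {b | (⟨cs.simple b, 1⟩ : W ⋊[φ] H) ∈ T}

theorem closure_eq (T : Set (W ⋊[φ] H)) (hT : T ⊆ {s | ∃ b : B, s = ⟨cs.simple b, 1⟩}) :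
    Subgroup.closure T = (Q27.Cox.P cs (idx cs φ T)).map SemidirectProduct.inl := by
  rw [Q27.Cox.P, MonoidHom.map_closure]
  congr 1
  ext t
  constructor
  · intro ht
    obtain ⟨b, rfl⟩ := hT ht
    exact ⟨cs.simple b, ⟨b, ht, rfl⟩, rfl⟩
  · rintro ⟨_, ⟨b, hb, rfl⟩, rfl⟩
    exact hb

/-- The semidirect product as an extended Coxeter group. -/
def extG (hφ : ∀ h b, φ h (cs.simple b) = cs.simple (h • b)) : Ext (W ⋊[φ] H) where
  S := {s | ∃ b : B, s = ⟨cs.simple b, 1⟩}
  len g := cs.length g.left
  sq := by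
    rintro _ ⟨b, rfl⟩
    ext <;> simp
  len_one := by simp
  len_inv := by
    intro g
    rw [SemidirectProduct.inv_left, length_map cs φ hφ, cs.length_inv]
  len_mul := by
    intro g h
    rw [SemidirectProduct.mul_left]
    refine (cs.length_mul_le _ _).trans ?_
    rw [length_map cs φ hφ]
  len_smul := by
    rintro _ ⟨b, rfl⟩ g
    simp only [SemidirectProduct.mul_left, map_one, MulAut.one_apply]
    exact cs.length_simple_mul g.left b
  len_muls := by
    rintro _ ⟨b, rfl⟩ g
    simp only [SemidirectProduct.mul_left, hφ]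
    exact cs.length_mul_simple g.left (g.right • b)
  conj := by
    rintro g hg _ ⟨b, rfl⟩
    rw [cs.length_eq_zero_iff] at hg
    refine ⟨g.right • b, ?_⟩
    ext
    · simp [hg, hφ]
    · simp
  desc := by
    intro g hg
    have h1 : g.left ≠ 1 := fun h => hg (by rw [h, cs.length_one])
    obtain ⟨b, hb⟩ := cs.exists_rightDescent_of_ne_one h1
    refine ⟨⟨cs.simple (g.right⁻¹ • b), 1⟩, ⟨_, rfl⟩, ?_⟩
    simp only [SemidirectProduct.mul_left, hφ, smul_inv_smul]
    exact hb
  lift := by
    rintro _ ⟨b, rfl⟩ _ ⟨c, rfl⟩ g h1 h2 h3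
    simp only [SemidirectProduct.mul_left, SemidirectProduct.mul_right, map_one, MulAut.one_apply,
      one_mul, hφ] at h1 h2 h3
    have hx : g.left ∈ Q27.Cox.R cs {g.right • b} := by
      rintro j hj
      rw [Set.mem_singleton_iff] at hj
      rw [hj]
      exact h2
    have h4 : cs.simple c * g.left = g.left * cs.simple (g.right • b) := by
      rcases Q27.Cox.deodhar_up hx h1 with h5 | ⟨j, hj, h5⟩
      · have h6 := h5 (g.right • b) rfl
        omega
      · rw [Set.mem_singleton_iff] at hj
        rw [← hj]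
        exact h5
    ext
    · simp only [SemidirectProduct.mul_left, map_one, MulAut.one_apply, hφ]
      exact h4
    · simp
  par_decomp := by
    intro T hT g
    obtain ⟨y, hy, x, hx, h1, -⟩ := Q27.Cox.exists_decomp_L (cs := cs) (idx cs φ T) g.left
    refine ⟨SemidirectProduct.inl y, ?_, ⟨x, g.right⟩, ?_, ?_⟩
    · rw [closure_eq cs φ T hT]
      exact Subgroup.mem_map_of_mem _ hy
    · intro t ht
      obtain ⟨b, rfl⟩ := hT ht
      simp only [SemidirectProduct.mul_left, map_one, MulAut.one_apply]
      exact hx b ht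
    · ext
      · simp [h1]
      · simp
  par_len := by
    intro T hT u hu m hm
    rw [closure_eq cs φ T hT] at hu
    obtain ⟨y, hy, rfl⟩ := Subgroup.mem_map.1 hu
    simp only [SemidirectProduct.mul_left, SemidirectProduct.left_inl,
      SemidirectProduct.right_inl, map_one, MulAut.one_apply]
    refine Q27.Cox.length_mul_L ?_ hy
    intro b hb
    have h1 := hm _ hb
    simpa only [SemidirectProduct.mul_left, map_one, MulAut.one_apply] using h1
  par_desc := by
    intro T hT u hu hu1
    rw [closure_eq cs φ T hT] at hu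
    obtain ⟨y, hy, rfl⟩ := Subgroup.mem_map.1 hu
    have hy1 : y ≠ 1 := fun h => hu1 (by rw [h, map_one])
    obtain ⟨b, hb⟩ := cs.exists_leftDescent_of_ne_one hy1
    refine ⟨⟨cs.simple b, 1⟩, Q27.Cox.descent_mem hy hb, ?_⟩
    simp only [SemidirectProduct.mul_left, map_one, MulAut.one_apply,
      SemidirectProduct.left_inl]
    exact hb

theorem t_EXT : S_EXT := by
  intro B M W _ cs H _ _ φ hφ
  exact ⟨extG cs φ hφ, rfl, fun _ => rfl⟩

end

end Pool.Agent.V5helper52.ZD
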